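import Mathlib

set_option autoImplicit false

open Set Filter

namespace Pool.Agent.Results.MP_a2e3d9_lc.NoGoodSection

/-- `B` is good for `f`: it meets every class of the orbit equivalence relation, it is forward
invariant, and `f` is finite-to-one on it. -/
def Good {X : Type} (f : X → X) (B : Set X) : Prop :=
  (∀ x, ∃ y ∈ B, ∃ m n : ℕ, f^[m] x = f^[n] y) ∧ f '' B ⊆ B ∧ ∀ y, (f ⁻¹' {y} ∩ B).Finite

def shift (m : ℕ) (x : ℕ → ℕ) : ℕ → ℕ := fun i => x (i + m)

def pre (m : ℕ) (w y : ℕ → ℕ) : ℕ → ℕ := fun i => if i < m then w i else y (i - m)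

def F (p : ℕ × (ℕ → ℕ)) : ℕ × (ℕ → ℕ) := (p.1 + 1, shift 1 p.2)

theorem shift_pre (m : ℕ) (w y : ℕ → ℕ) : shift m (pre m w y) = y := by
  funext i; simp [shift, pre]

theorem pre_shift (m : ℕ) (w x : ℕ → ℕ) (h : ∀ i < m, x i = w i) : pre m w (shift m x) = x := by
  funext i
  unfold pre shift
  split_ifs with hi
  · exact (h i hi).symm
  · congr 1; omega

theorem cont_shift (m : ℕ) : Continuous (shift m) :=
  continuous_pi fun i => continuous_apply (i + m)

theorem cont_pre (m : ℕ) (w : ℕ → ℕ) : Continuous (pre m w) := by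
  refine continuous_pi fun i => ?_
  unfold pre
  split_ifs
  · exact continuous_const
  · exact continuous_apply _

theorem open_shift (m : ℕ) : IsOpenMap (shift m) :=
  IsOpenMap.of_sections fun x => ⟨pre m x, (cont_pre m x).continuousAt,
    pre_shift m x x fun _ _ => rfl, shift_pre m x⟩

theorem open_pre (m : ℕ) (w : ℕ → ℕ) : IsOpenMap (pre m w) := by
  intro V hV
  have : pre m w '' V = PiNat.cylinder w m ∩ shift m ⁻¹' V := by
    ext x
    constructor
    · rintro ⟨y, hy, rfl⟩
      refine ⟨PiNat.mem_cylinder_iff.2 fun i hi => by simp [pre, hi], ?_⟩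
      rw [mem_preimage, shift_pre]; exact hy
    · rintro ⟨h1, h2⟩
      exact ⟨_, h2, pre_shift m w x (PiNat.mem_cylinder_iff.1 h1)⟩
  rw [this]
  exact (PiNat.isOpen_cylinder (fun _ => ℕ) w m).inter (hV.preimage (cont_shift m))

theorem open_mk (n : ℕ) : IsOpenMap (fun y : ℕ → ℕ => (n, y)) := by
  intro V hV
  have : (fun y : ℕ → ℕ => (n, y)) '' V = {n} ×ˢ V := by
    ext ⟨a, b⟩; simp [eq_comm, and_comm]
  rw [this]
  exact (isOpen_discrete _).prod hV

theorem iter (m k : ℕ) (x : ℕ → ℕ) : F^[m] (k, x) = (k + m, shift m x) := by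
  induction m with
  | zero => rfl
  | succ m ih =>
    rw [Function.iterate_succ_apply', ih]
    refine Prod.ext rfl (funext fun i => ?_)
    show x (i + 1 + m) = x (i + (m + 1))
    congr 1; omega

theorem not_good {B : Set (ℕ × (ℕ → ℕ))} (hB : BaireMeasurableSet B) : ¬ Good F B := by
  rintro ⟨h1, h2, h3⟩
  have hit : ∀ m, ∀ p ∈ B, F^[m] p ∈ B := by
    intro m p hp
    induction m with
    | zero => exact hp
    | succ m ih => rw [Function.iterate_succ_apply']; exact h2 ⟨_, ih, rfl⟩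
  obtain ⟨U, hU, hBU⟩ := hB.residualEq_isOpen
  have hR : ∀ᶠ p in residual (ℕ × (ℕ → ℕ)), p ∈ B ↔ p ∈ U := eventuallyEq_set.1 hBU
  have key : ∀ (n : ℕ) (φ : ℕ → (ℕ → ℕ) → (ℕ → ℕ)) (k : ℕ → ℕ), (∀ j, Continuous (φ j)) →
      (∀ j, IsOpenMap (φ j)) → ∃ y, ∀ j, ((k j, φ j y) ∈ B ↔ (k j, φ j y) ∈ U) := by
    intro n φ k hc ho
    have : ∀ᶠ y in residual (ℕ → ℕ), ∀ j, ((k j, φ j y) ∈ B ↔ (k j, φ j y) ∈ U) :=
      eventually_countable_forall.2 fun j =>
        (tendsto_residual_of_isOpenMap (f := fun y => (k j, φ j y))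
          (continuous_const.prodMk (hc j)) ((open_mk (k j)).comp (ho j))).eventually hR
    exact (dense_of_mem_residual this).nonempty
  obtain ⟨x, hx⟩ := key 0 shift id cont_shift open_shift
  obtain ⟨y, hy, n, n', hn⟩ := h1 (0, x)
  have hxB : (n, shift n x) ∈ B := by
    have := hit n' y hy
    rw [← hn, iter, zero_add] at this
    exact this
  have hxU : shift n x ∈ (fun y : ℕ → ℕ => (n, y)) ⁻¹' U := (hx n).1 hxB
  obtain ⟨t, ⟨w, m, rfl⟩, -, hsub⟩ := (PiNat.isTopologicalBasis_cylinders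
    (fun _ : ℕ => ℕ)).exists_subset_of_mem_open hxU
    (hU.preimage (continuous_const.prodMk continuous_id))
  obtain ⟨z, hz⟩ := key 0 (fun j => pre (m + 1) (Function.update w m j)) (fun _ => n)
    (fun j => cont_pre _ _) (fun j => open_pre _ _)
  have hmem : ∀ j, (n + m, shift m (pre (m + 1) (Function.update w m j) z)) ∈ B := by
    intro j
    rw [← iter]
    refine hit m _ ((hz j).2 (hsub (PiNat.mem_cylinder_iff.2 fun i hi => ?_)))
    simp [pre, hi.le, Nat.lt_succ_iff, Function.update_of_ne hi.ne]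
  refine infinite_of_injective_forall_mem
    (f := fun j => (n + m, shift m (pre (m + 1) (Function.update w m j) z))) ?_ (fun j => ?_)
    (h3 (n + m + 1, z))
  · intro i j hij
    have := congrFun (congrArg Prod.snd hij) 0
    simpa [shift, pre] using this
  · refine ⟨?_, hmem j⟩
    refine Prod.ext rfl (funext fun i => ?_)
    show pre (m + 1) (Function.update w m j) z (i + 1 + m) = z i
    unfold pre
    rw [if_neg (by omega)]
    congr 1; omega

theorem result : ∃ (X : Type) (_ : TopologicalSpace X) (_ : PolishSpace X)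
    (_ : MeasurableSpace X) (_ : BorelSpace X) (f : X → X), Measurable f ∧
      (∀ y, (f ⁻¹' {y}).Countable) ∧ (∀ x (n : ℕ), 1 ≤ n → f^[n] x ≠ x) ∧
      (¬ ∃ x : ℕ → X, ∀ i, f (x (i + 1)) = x i) ∧
      (∀ B : Set X, MeasurableSet B → ¬ Good f B) ∧
      (∀ B : Set X, BaireMeasurableSet B → ¬ Good f B) := by
  refine ⟨ℕ × (ℕ → ℕ), inferInstance, inferInstance, inferInstance, inferInstance, F, ?_, ?_, ?_,
    ?_, fun B hB => not_good hB.baireMeasurableSet, fun B hB => not_good hB⟩
  · have : Continuous F := Continuous.prodMk (by fun_prop) ((cont_shift 1).comp continuous_snd)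
    exact this.measurable
  · rintro ⟨k, y⟩
    refine (countable_range fun p : ℕ × ℕ => (p.1, pre 1 (fun _ => p.2) y)).mono ?_
    rintro ⟨a, x⟩ h
    have h2 : shift 1 x = y := congrArg Prod.snd h
    refine ⟨(a, x 0), Prod.ext rfl ?_⟩
    rw [← h2]
    exact pre_shift 1 _ x fun i hi => by rw [Nat.lt_one_iff.1 hi]
  · rintro ⟨k, x⟩ n hn h
    rw [iter] at h
    have := congrArg Prod.fst h
    simp only at this
    omega
  · rintro ⟨x, hx⟩
    have h1 : ∀ i, (x i).1 + i = (x 0).1 := by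
      intro i
      induction i with
      | zero => rfl
      | succ i ih =>
        have : (x (i + 1)).1 + 1 = (x i).1 := congrArg Prod.fst (hx i)
        omega
    have := h1 ((x 0).1 + 1)
    omega

end Pool.Agent.Results.MP_a2e3d9_lc.NoGoodSection
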